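import Mathlib

/-!
# Traub's map as a rational map of the Riemann sphere
-/

set_option autoImplicit false

namespace Pool.Agent.Hhelper2.Traub

open Polynomial Filter Topology

/-- Newton's map `z - p / p'` as a rational function -/
noncomputable def newton (p : ℂ[X]) : RatFunc ℂ :=
  RatFunc.X - algebraMap ℂ[X] (RatFunc ℂ) p / algebraMap ℂ[X] (RatFunc ℂ) (derivative p)

/-- the damped Traub map `N - δ p(N) / p'` as a rational function (`δ = 1`: Traub's map) -/
noncomputable def traub (p : ℂ[X]) (δ : ℂ) : RatFunc ℂ :=
  newton p - RatFunc.C δ * (aeval (newton p) p / algebraMap ℂ[X] (RatFunc ℂ) (derivative p))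

/-- the rational map of the Riemann sphere `OnePoint ℂ` given by a rational function (`num` and `denom`
are coprime) -/
noncomputable def sphereMap (R : RatFunc ℂ) (z : OnePoint ℂ) : OnePoint ℂ :=
  z.elim
    (if R.denom.natDegree < R.num.natDegree then OnePoint.infty
      else if R.num.natDegree = R.denom.natDegree then
        ((R.num.leadingCoeff / R.denom.leadingCoeff : ℂ) : OnePoint ℂ)
      else ((0 : ℂ) : OnePoint ℂ))
    (fun w => if R.denom.eval w = 0 then OnePoint.infty
      else ((R.num.eval w / R.denom.eval w : ℂ) : OnePoint ℂ))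

/-- the basin of attraction of the point `a` under `f` -/
def basin (f : OnePoint ℂ → OnePoint ℂ) (a : OnePoint ℂ) : Set (OnePoint ℂ) :=
  {z | Tendsto (fun n => f^[n] z) atTop (𝓝 a)}

/-- the immediate basin: the connected component of the basin that contains `a` -/
def immediateBasin (f : OnePoint ℂ → OnePoint ℂ) (a : OnePoint ℂ) : Set (OnePoint ℂ) :=
  connectedComponentIn (basin f a) a

/-- a subset of the sphere is unbounded if it is not contained in a bounded subset of `ℂ` -/
def Unbounded (S : Set (OnePoint ℂ)) : Prop :=
  ∀ R : ℝ, ∃ z ∈ S, ∀ w : ℂ, z = (w : OnePoint ℂ) → R < ‖w‖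

end Pool.Agent.Hhelper2.Traub
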