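import Pool.Agent.Hhelper2.Traub.Ray

set_option autoImplicit false

namespace Pool.Agent.Hhelper2.Traub

open Polynomial Filter Topology

theorem unbounded_of_ray (a u : ℂ) (hu : u ≠ 0) (S : Set (OnePoint ℂ))
    (h : ∀ t : ℝ, 0 ≤ t → ((a + u * t : ℂ) : OnePoint ℂ) ∈ S) : Unbounded S := by
  intro R
  refine ⟨((a + u * ((|R| + ‖a‖ + 1) / ‖u‖ : ℝ) : ℂ) : OnePoint ℂ), h _ (by positivity), ?_⟩
  intro w hw
  have hw' := OnePoint.coe_injective hw
  rw [← hw']
  have hu' : 0 < ‖u‖ := norm_pos_iff.2 hu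
  have h1 : ‖u * (((|R| + ‖a‖ + 1) / ‖u‖ : ℝ) : ℂ)‖ = |R| + ‖a‖ + 1 := by
    rw [norm_mul, Complex.norm_real, Real.norm_of_nonneg (by positivity)]
    field_simp
  have h2 : ‖u * (((|R| + ‖a‖ + 1) / ‖u‖ : ℝ) : ℂ)‖
      ≤ ‖a + u * (((|R| + ‖a‖ + 1) / ‖u‖ : ℝ) : ℂ)‖ + ‖a‖ := by
    have h3 := norm_sub_le (a + u * (((|R| + ‖a‖ + 1) / ‖u‖ : ℝ) : ℂ)) a
    rw [add_sub_cancel_left] at h3
    exact h3
  have h4 := le_abs_self R
  linarith

/-- the general statement -/
theorem general (p : ℂ[X]) (hp : p ≠ 0) (a u c : ℂ) (ha : p.eval a = 0) (hu : u ≠ 0) (hc : c ≠ 0)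
    (h : ∀ k, ∃ t : ℝ, 0 ≤ t ∧ (p.comp (C a + C u * X)).coeff k = c * t)
    (δ : ℝ) (hδ : 0 ≤ δ) (hδ1 : δ ≤ 1) (t : ℝ) (ht : 0 ≤ t) :
    ((a + u * t : ℂ) : OnePoint ℂ) ∈ immediateBasin (sphereMap (traub p δ)) (a : OnePoint ℂ) := by
  choose f hf0 hf using h
  set P := p.comp (C a + C u * X) with hP
  set q : ℝ[X] := ∑ k ∈ Finset.range (P.natDegree + 1), C (f k) * X ^ k with hq
  have hcoef : ∀ k, q.coeff k = f k := by
    intro k
    rw [hq, finsetSum_coeff]
    simp only [coeff_C_mul, coeff_X_pow, mul_ite, mul_one, mul_zero]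
    rw [Finset.sum_ite_eq]
    split_ifs with hk
    · rfl
    · rw [Finset.mem_range, not_lt] at hk
      have h1 := hf k
      rw [coeff_eq_zero_of_natDegree_lt (by omega)] at h1
      have h2 := (mul_eq_zero.1 h1.symm).resolve_left hc
      exact_mod_cast h2.symm
  have hPq : P = C c * q.map (algebraMap ℝ ℂ) := by
    ext k
    rw [hf k, coeff_C_mul, coeff_map, hcoef]
    rfl
  have hP0 : P.coeff 0 = 0 := by
    rw [coeff_zero_eq_eval_zero, hP, eval_comp]
    simp [ha]
  refine ray_subset p a u c hu hc q (fun k => by rw [hcoef]; exact hf0 k) ?_ ?_ hPq δ hδ hδ1 t ht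
  · rw [hcoef]
    have h1 := hf 0
    rw [hP0] at h1
    have h2 := (mul_eq_zero.1 h1.symm).resolve_left hc
    exact_mod_cast h2
  · intro h0
    rw [h0, Polynomial.map_zero, mul_zero] at hPq
    have h1 : (C a + C u * X : ℂ[X]).natDegree = 1 := by
      rw [add_comm]
      exact natDegree_linear hu
    have h2 := (comp_eq_zero_iff (p := p) (q := C a + C u * X)).1 hPq
    rcases h2 with h2 | h2
    · exact hp h2
    · rw [h2.2, natDegree_C] at h1
      exact absurd h1 (by norm_num)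

/-! ### Nonnegative coefficients -/

def NN (r : ℝ[X]) : Prop := ∀ k, 0 ≤ r.coeff k

theorem NN.mul {r s : ℝ[X]} (hr : NN r) (hs : NN s) : NN (r * s) := by
  intro k
  rw [coeff_mul]
  exact Finset.sum_nonneg fun x _ => mul_nonneg (hr _) (hs _)

theorem NN.add {r s : ℝ[X]} (hr : NN r) (hs : NN s) : NN (r + s) := by
  intro k
  rw [coeff_add]
  exact add_nonneg (hr _) (hs _)

theorem nn_C {t : ℝ} (ht : 0 ≤ t) : NN (C t) := by
  intro k
  rw [coeff_C]
  split_ifs <;> simp [ht]

theorem nn_X : NN (X : ℝ[X]) := by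
  intro k
  rw [coeff_X]
  split_ifs <;> simp

theorem nn_one : NN (1 : ℝ[X]) := by
  rw [← C_1]
  exact nn_C zero_le_one

theorem NN.pow {r : ℝ[X]} (hr : NN r) (n : ℕ) : NN (r ^ n) := by
  induction n with
  | zero =>
    rw [pow_zero]
    exact nn_one
  | succ n ih =>
    rw [pow_succ]
    exact ih.mul hr

theorem nn_of_roots (n : ℕ) : ∀ r : ℝ[X], r.natDegree = n → r.Monic →
    (∀ z : ℂ, aeval z r = 0 → z.re ≤ 0) → NN r := by
  induction n using Nat.strong_induction_on with
  | _ n ih =>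
    intro r hrn hr hz
    rcases Nat.eq_zero_or_pos n with h0 | h0
    · have : r = 1 := hr.natDegree_eq_zero.1 (by omega)
      rw [this]
      exact nn_one
    · have hdeg : (r.map (algebraMap ℝ ℂ)).degree ≠ 0 := by
        rw [degree_map]
        intro h
        have := natDegree_eq_of_degree_eq_some (n := 0) (by simpa using h)
        omega
      obtain ⟨z, hz0⟩ := IsAlgClosed.exists_root (r.map (algebraMap ℝ ℂ)) hdeg
      have hz1 : aeval z r = 0 := by
        rw [IsRoot, eval_map_algebraMap] at hz0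
        exact hz0
      have hre := hz z hz1
      by_cases him : z.im = 0
      · have hzr : z = ((z.re : ℝ) : ℂ) := by
          apply Complex.ext <;> simp [him]
        have h1 : r.eval z.re = 0 := by
          rw [hzr] at hz1
          have h2 := Polynomial.aeval_algebraMap_apply (A := ℝ) ℂ z.re r
          have h3 : (algebraMap ℝ ℂ z.re) = ((z.re : ℝ) : ℂ) := rfl
          rw [h3, hz1] at h2
          have h4 : aeval z.re r = 0 := by
            have h5 : ((aeval z.re r : ℝ) : ℂ) = 0 := h2.symm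
            exact_mod_cast h5
          simpa using h4
        obtain ⟨r', hr'⟩ := dvd_iff_isRoot.2 h1
        have hm1 : (X - C z.re : ℝ[X]).Monic := monic_X_sub_C _
        have hm' : r'.Monic := by
          rw [hr'] at hr
          exact hm1.of_mul_monic_left hr
        have hd : r.natDegree = 1 + r'.natDegree := by
          rw [hr', hm1.natDegree_mul hm', natDegree_X_sub_C]
        have h2 := ih r'.natDegree (by omega) r' rfl hm' (fun w hw => hz w (by
          rw [hr', map_mul, hw, mul_zero]))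
        rw [hr']
        refine NN.mul ?_ h2
        rw [sub_eq_add_neg, ← C_neg]
        exact nn_X.add (nn_C (by linarith))
      · obtain ⟨r', hr'⟩ := quadratic_dvd_of_aeval_eq_zero_im_ne_zero r hz1 him
        set Q : ℝ[X] := X ^ 2 - C (2 * z.re) * X + C (‖z‖ ^ 2) with hQ
        have hQ' : Q = X ^ 2 + C (-(2 * z.re)) * X + C (‖z‖ ^ 2) := by
          rw [hQ, C_neg]
          ring
        have hQd : Q.natDegree = 2 ∧ Q.Monic := by
          have e1 : Q = C 1 * X ^ 2 + C (-(2 * z.re)) * X + C (‖z‖ ^ 2) := by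
            rw [hQ', C_1, one_mul]
          constructor
          · rw [e1]
            exact natDegree_quadratic one_ne_zero
          · rw [Monic, e1]
            exact leadingCoeff_quadratic one_ne_zero
        have hm' : r'.Monic := by
          rw [hr'] at hr
          exact hQd.2.of_mul_monic_left hr
        have hd : r.natDegree = 2 + r'.natDegree := by
          rw [hr', hQd.2.natDegree_mul hm', hQd.1]
        have h2 := ih r'.natDegree (by omega) r' rfl hm' (fun w hw => hz w (by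
          rw [hr', map_mul, hw, mul_zero]))
        rw [hr']
        refine NN.mul ?_ h2
        rw [hQ']
        exact ((nn_X.pow 2).add ((nn_C (by linarith)).mul nn_X)).add (nn_C (by positivity))

/-- real polynomials with an extreme real root -/
theorem real_case (p : ℝ[X]) (hp : p ≠ 0) (a : ℝ) (ha : p.eval a = 0) (ε : ℝ)
    (hε : ε = 1 ∨ ε = -1) (hz : ∀ z : ℂ, aeval z p = 0 → ε * (z.re - a) ≤ 0)
    (δ : ℝ) (hδ : 0 ≤ δ) (hδ1 : δ ≤ 1) (t : ℝ) (ht : 0 ≤ t) :
    (((a : ℂ) + ((ε : ℝ) : ℂ) * t : ℂ) : OnePoint ℂ)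
      ∈ immediateBasin (sphereMap (traub (p.map (algebraMap ℝ ℂ)) δ)) ((a : ℂ) : OnePoint ℂ) := by
  have hε0 : ε ≠ 0 := by rcases hε with h | h <;> rw [h] <;> norm_num
  have hεε : ε * ε = 1 := by rcases hε with h | h <;> rw [h] <;> norm_num
  set s : ℝ[X] := C a + C ε * X with hs
  have hsd : s.natDegree = 1 := by
    rw [hs, add_comm]
    exact natDegree_linear hε0
  set P := p.comp s with hP
  have hP0 : P ≠ 0 := by
    intro h
    rcases (comp_eq_zero_iff (p := p) (q := s)).1 h with h2 | h2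
    · exact hp h2
    · rw [h2.2, natDegree_C] at hsd
      exact absurd hsd (by norm_num)
  have hlc : P.leadingCoeff ≠ 0 := leadingCoeff_ne_zero.2 hP0
  have hmon : (C P.leadingCoeff⁻¹ * P).Monic := by
    rw [Monic, leadingCoeff_mul, leadingCoeff_C, inv_mul_cancel₀ hlc]
  have hNN : NN (C P.leadingCoeff⁻¹ * P) := by
    refine nn_of_roots _ _ rfl hmon fun w hw => ?_
    rw [map_mul, aeval_C] at hw
    have h1 : aeval w P = 0 := by
      refine (mul_eq_zero.1 hw).resolve_left ?_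
      intro h0
      exact inv_ne_zero hlc ((map_eq_zero (algebraMap ℝ ℂ)).1 h0)
    rw [hP, aeval_comp] at h1
    have h2 : aeval w s = (a : ℂ) + (ε : ℂ) * w := by
      simp [hs]
    rw [h2] at h1
    have h3 := hz _ h1
    simp only [Complex.add_re, Complex.ofReal_re, Complex.mul_re, Complex.ofReal_im, zero_mul,
      sub_zero] at h3
    have h4 : ε * (a + ε * w.re - a) = ε * ε * w.re := by ring
    rw [h4, hεε, one_mul] at h3
    exact h3
  refine general (p.map (algebraMap ℝ ℂ)) ?_ a ε ((P.leadingCoeff : ℝ) : ℂ) ?_ ?_ ?_ ?_ δ hδ hδ1 t ht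
  · exact (Polynomial.map_ne_zero_iff (algebraMap ℝ ℂ).injective).2 hp
  · rw [eval_map_algebraMap]
    have h2 := Polynomial.aeval_algebraMap_apply (A := ℝ) ℂ a p
    have h3 : (algebraMap ℝ ℂ a) = ((a : ℝ) : ℂ) := rfl
    rw [h3] at h2
    rw [h2]
    simp [ha]
  · exact_mod_cast hε0
  · exact_mod_cast hlc
  · intro k
    refine ⟨(C P.leadingCoeff⁻¹ * P).coeff k, hNN k, ?_⟩
    have e1 : (p.map (algebraMap ℝ ℂ)).comp (C (a : ℂ) + C (ε : ℂ) * X) = P.map (algebraMap ℝ ℂ) := by
      rw [hP, Polynomial.map_comp, hs]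
      simp
    rw [e1, coeff_map, coeff_C_mul]
    push_cast
    have h5 : ((P.leadingCoeff : ℝ) : ℂ) ≠ 0 := by exact_mod_cast hlc
    rw [← mul_assoc, mul_inv_cancel₀ h5, one_mul]
    rfl

theorem coeff_form (P : ℂ[X]) (c : ℂ) (q : ℝ[X]) (hq : NN q)
    (h : P = C c * q.map (algebraMap ℝ ℂ)) (k : ℕ) :
    ∃ t : ℝ, 0 ≤ t ∧ P.coeff k = c * t := by
  refine ⟨q.coeff k, hq k, ?_⟩
  rw [h, coeff_C_mul, coeff_map]
  rfl

theorem nn_binom (n : ℕ) : NN ((1 + X : ℝ[X]) ^ n - 1) := by
  intro k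
  rw [coeff_sub, coeff_one_add_X_pow]
  rcases k with _ | k
  · simp
  · rw [coeff_one]
    simp

/-- all roots of `z^k (z^n - β)^l` -/
theorem cyclic_case (k n l : ℕ) (β : ℂ) (hn : 1 ≤ n) (a : ℂ)
    (ha : (X ^ k * (X ^ n - C β) ^ l : ℂ[X]).eval a = 0)
    (δ : ℝ) (hδ : 0 ≤ δ) (hδ1 : δ ≤ 1) :
    ∃ u : ℂ, u ≠ 0 ∧ ∀ t : ℝ, 0 ≤ t → ((a + u * t : ℂ) : OnePoint ℂ)
      ∈ immediateBasin (sphereMap (traub (X ^ k * (X ^ n - C β) ^ l) δ)) (a : OnePoint ℂ) := by
  have hp : (X ^ k * (X ^ n - C β) ^ l : ℂ[X]) ≠ 0 := by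
    refine mul_ne_zero (pow_ne_zero _ X_ne_zero) (pow_ne_zero _ ?_)
    exact (monic_X_pow_sub_C β (by omega)).ne_zero
  by_cases ha0 : a = 0
  · subst ha0
    by_cases hβ : β = 0
    · subst hβ
      refine ⟨1, one_ne_zero, fun t ht => ?_⟩
      refine general _ hp 0 1 1 ha one_ne_zero one_ne_zero
        (coeff_form _ 1 (X ^ k * (X ^ n) ^ l) ((nn_X.pow k).mul ((nn_X.pow n).pow l)) ?_)
        δ hδ hδ1 t ht
      simp [Polynomial.map_mul, Polynomial.map_pow]
    · obtain ⟨u, hu⟩ := IsAlgClosed.exists_pow_nat_eq (-β) (n := n) (by omega)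
      have hu0 : u ≠ 0 := by
        rintro rfl
        rw [zero_pow (by omega)] at hu
        exact hβ (neg_eq_zero.1 hu.symm)
      refine ⟨u, hu0, fun t ht => ?_⟩
      refine general _ hp 0 u (u ^ k * (-β) ^ l) ha hu0
        (mul_ne_zero (pow_ne_zero _ hu0) (pow_ne_zero _ (neg_ne_zero.2 hβ)))
        (coeff_form _ _ (X ^ k * (X ^ n + 1) ^ l) ((nn_X.pow k).mul (((nn_X.pow n).add nn_one).pow l)) ?_)
        δ hδ hδ1 t ht
      have h1 : (C u : ℂ[X]) ^ n = -C β := by rw [← C_pow, hu, C_neg]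
      simp only [mul_comp, pow_comp, X_comp, sub_comp, C_comp, map_zero, zero_add, mul_pow, h1,
        Polynomial.map_mul, Polynomial.map_pow, map_X, Polynomial.map_add, Polynomial.map_one]
      rw [C_mul, C_pow, C_pow, C_neg]
      have h2 : -C β * X ^ n - C β = -C β * (X ^ n + 1) := by ring
      rw [h2, mul_pow]
      ring
  · have haβ : a ^ n = β := by
      rw [eval_mul, eval_pow, eval_pow, eval_sub, eval_pow, eval_X, eval_C] at ha
      rcases mul_eq_zero.1 ha with h | h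
      · exact absurd h (pow_ne_zero _ ha0)
      · by_contra h'
        exact pow_ne_zero _ (sub_ne_zero.2 h') h
    have hβ : β ≠ 0 := by
      rw [← haβ]
      exact pow_ne_zero _ ha0
    refine ⟨a, ha0, fun t ht => ?_⟩
    refine general _ hp a a (a ^ k * β ^ l) ha ha0
      (mul_ne_zero (pow_ne_zero _ ha0) (pow_ne_zero _ hβ))
      (coeff_form _ _ ((1 + X) ^ k * ((1 + X) ^ n - 1) ^ l)
        (((nn_one.add nn_X).pow k).mul ((nn_binom n).pow l)) ?_)
      δ hδ hδ1 t ht
    have h1 : (C a + C a * X : ℂ[X]) = C a * (1 + X) := by ring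
    have h2 : (C a : ℂ[X]) ^ n = C β := by rw [← C_pow, haβ]
    simp only [mul_comp, pow_comp, X_comp, sub_comp, C_comp, h1, mul_pow, h2,
      Polynomial.map_mul, Polynomial.map_pow, map_X, Polynomial.map_add, Polynomial.map_one,
      Polynomial.map_sub]
    rw [C_mul, C_pow, C_pow]
    have h3 : C β * (1 + X) ^ n - C β = C β * ((1 + X) ^ n - 1) := by ring
    rw [h3, mul_pow]
    ring

end Pool.Agent.Hhelper2.Traub
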