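import Pool.Agent.Hhelper2.Traub.Defs

set_option autoImplicit false

namespace Pool.Agent.Hhelper2.Traub

open Polynomial Filter Topology

/-! ### Evaluation of rational functions at regular points -/

/-- `R` is regular at `z` with value `v` -/
def RegAt (R : RatFunc ℂ) (z v : ℂ) : Prop := R.denom.eval z ≠ 0 ∧ R.num.eval z = v * R.denom.eval z

theorem regAt_iff (R : RatFunc ℂ) (z v : ℂ) :
    RegAt R z v ↔ R.denom.eval z ≠ 0 ∧ R.eval (RingHom.id ℂ) z = v := by
  unfold RegAt RatFunc.eval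
  simp only [eval₂_id]
  constructor
  · rintro ⟨h, h'⟩
    refine ⟨h, ?_⟩
    rw [h', mul_div_assoc, div_self h, mul_one]
  · rintro ⟨h, h'⟩
    refine ⟨h, ?_⟩
    rw [← h', div_mul_cancel₀ _ h]

theorem regAt_of_dvd {R : RatFunc ℂ} {q : ℂ[X]} (h : R.denom ∣ q) {z : ℂ} (hq : q.eval z ≠ 0) :
    R.denom.eval z ≠ 0 := by
  obtain ⟨t, rfl⟩ := h
  rw [eval_mul] at hq
  exact left_ne_zero_of_mul hq

theorem RegAt.add {R S : RatFunc ℂ} {z v w : ℂ} (hR : RegAt R z v) (hS : RegAt S z w) :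
    RegAt (R + S) z (v + w) := by
  rw [regAt_iff] at *
  refine ⟨regAt_of_dvd (RatFunc.denom_add_dvd R S) ?_, ?_⟩
  · rw [eval_mul]
    exact mul_ne_zero hR.1 hS.1
  · rw [RatFunc.eval_add _ _ (by simpa using hR.1) (by simpa using hS.1), hR.2, hS.2]

theorem RegAt.mul {R S : RatFunc ℂ} {z v w : ℂ} (hR : RegAt R z v) (hS : RegAt S z w) :
    RegAt (R * S) z (v * w) := by
  rw [regAt_iff] at *
  refine ⟨regAt_of_dvd (RatFunc.denom_mul_dvd R S) ?_, ?_⟩
  · rw [eval_mul]
    exact mul_ne_zero hR.1 hS.1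
  · rw [RatFunc.eval_mul _ _ (by simpa using hR.1) (by simpa using hS.1), hR.2, hS.2]

theorem regAt_C (c z : ℂ) : RegAt (RatFunc.C c) z c := by
  rw [regAt_iff]
  simp

theorem regAt_X (z : ℂ) : RegAt RatFunc.X z z := by
  rw [regAt_iff]
  simp

theorem regAt_div (p q : ℂ[X]) (z : ℂ) (hq : q.eval z ≠ 0) :
    RegAt (algebraMap ℂ[X] (RatFunc ℂ) p / algebraMap ℂ[X] (RatFunc ℂ) q) z
      (p.eval z / q.eval z) := by
  have hq0 : q ≠ 0 := by
    rintro rfl
    simp at hq
  have h1 : (algebraMap ℂ[X] (RatFunc ℂ) p / algebraMap ℂ[X] (RatFunc ℂ) q).denom.eval z ≠ 0 :=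
    regAt_of_dvd (RatFunc.denom_div_dvd p q) hq
  refine ⟨h1, ?_⟩
  have h2 := RatFunc.num_div_denom (algebraMap ℂ[X] (RatFunc ℂ) p / algebraMap ℂ[X] (RatFunc ℂ) q)
  set R := algebraMap ℂ[X] (RatFunc ℂ) p / algebraMap ℂ[X] (RatFunc ℂ) q with hR
  have hd : algebraMap ℂ[X] (RatFunc ℂ) R.denom ≠ 0 :=
    RatFunc.algebraMap_ne_zero (RatFunc.denom_ne_zero R)
  have hq' : algebraMap ℂ[X] (RatFunc ℂ) q ≠ 0 := RatFunc.algebraMap_ne_zero hq0
  rw [hR, div_eq_div_iff hd hq', ← map_mul, ← map_mul] at h2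
  have h3 := RatFunc.algebraMap_injective ℂ h2
  have h4 := congrArg (Polynomial.eval z) h3
  rw [eval_mul, eval_mul] at h4
  rw [div_mul_eq_mul_div, eq_div_iff hq]
  exact h4

theorem RegAt.div_poly {R : RatFunc ℂ} {z v : ℂ} (hR : RegAt R z v) (q : ℂ[X])
    (hq : q.eval z ≠ 0) :
    RegAt (R / algebraMap ℂ[X] (RatFunc ℂ) q) z (v / q.eval z) := by
  have h := hR.mul (regAt_div 1 q z hq)
  rw [map_one, eval_one, mul_one_div, mul_one_div] at h
  exact h

theorem RegAt.neg {R : RatFunc ℂ} {z v : ℂ} (hR : RegAt R z v) : RegAt (-R) z (-v) := by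
  have h := (regAt_C (-1) z).mul hR
  have e1 : RatFunc.C (-1 : ℂ) * R = -R := by
    rw [map_neg, map_one, neg_one_mul]
  rw [e1, neg_one_mul] at h
  exact h

theorem RegAt.sub {R S : RatFunc ℂ} {z v w : ℂ} (hR : RegAt R z v) (hS : RegAt S z w) :
    RegAt (R - S) z (v - w) := by
  rw [sub_eq_add_neg, sub_eq_add_neg]
  exact hR.add hS.neg

theorem RegAt.aeval {R : RatFunc ℂ} {z v : ℂ} (hR : RegAt R z v) (p : ℂ[X]) :
    RegAt (Polynomial.aeval R p) z (p.eval v) := by
  induction p using Polynomial.induction_on with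
  | C a =>
    have h := regAt_C a z
    simpa using h
  | add p q hp hq =>
    rw [map_add, eval_add]
    exact hp.add hq
  | monomial n a h =>
    have h' := h.mul hR
    rw [pow_succ, ← mul_assoc, map_mul, eval_mul]
    simpa using h'

theorem RegAt.sphere {R : RatFunc ℂ} {z v : ℂ} (hR : RegAt R z v) :
    sphereMap R (z : OnePoint ℂ) = (v : OnePoint ℂ) := by
  unfold sphereMap
  rw [OnePoint.elim_some, if_neg hR.1, hR.2, mul_div_assoc, div_self hR.1, mul_one]

theorem newton_reg (p : ℂ[X]) (z : ℂ) (h : (derivative p).eval z ≠ 0) :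
    RegAt (newton p) z (z - p.eval z / (derivative p).eval z) :=
  (regAt_X z).sub (regAt_div p _ z h)

theorem traub_reg (p : ℂ[X]) (δ z : ℂ) (h : (derivative p).eval z ≠ 0) :
    RegAt (traub p δ) z ((z - p.eval z / (derivative p).eval z)
      - δ * (p.eval (z - p.eval z / (derivative p).eval z) / (derivative p).eval z)) :=
  (newton_reg p z h).sub ((regAt_C δ z).mul (((newton_reg p z h).aeval p).div_poly _ h))

/-! ### Real polynomials with nonnegative coefficients -/

section real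

variable (q : ℝ[X]) (hq : ∀ k, 0 ≤ q.coeff k) (hq0 : q.coeff 0 = 0) (hqn : q ≠ 0)

include hq in
theorem eval_nonneg' (w : ℝ) (hw : 0 ≤ w) : 0 ≤ q.eval w := by
  rw [eval_eq_sum_range]
  exact Finset.sum_nonneg fun k _ => mul_nonneg (hq k) (pow_nonneg hw k)

include hq in
theorem eval_mono' {w w' : ℝ} (hw : 0 ≤ w) (hww : w ≤ w') : q.eval w ≤ q.eval w' := by
  rw [eval_eq_sum_range, eval_eq_sum_range]
  exact Finset.sum_le_sum fun k _ => mul_le_mul_of_nonneg_left (pow_le_pow_left₀ hw hww k) (hq k)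

include hq in
theorem deriv_coeff_nonneg (k : ℕ) : 0 ≤ (derivative q).coeff k := by
  rw [coeff_derivative]
  exact mul_nonneg (hq _) (by positivity)

include hq hqn in
theorem eval_pos' (w : ℝ) (hw : 0 < w) : 0 < q.eval w := by
  rw [eval_eq_sum_range]
  refine Finset.sum_pos' (fun k _ => mul_nonneg (hq k) (pow_nonneg hw.le k)) ?_
  refine ⟨q.natDegree, Finset.mem_range.2 (Nat.lt_succ_self _), ?_⟩
  have h1 : q.coeff q.natDegree ≠ 0 := by
    rw [coeff_natDegree]
    exact leadingCoeff_ne_zero.2 hqn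
  exact mul_pos (lt_of_le_of_ne (hq _) h1.symm) (pow_pos hw _)

include hq hq0 hqn in
theorem deriv_pos' (w : ℝ) (hw : 0 < w) : 0 < (derivative q).eval w := by
  refine eval_pos' (derivative q) (deriv_coeff_nonneg q hq) ?_ w hw
  intro h
  have h1 := derivative_eq_zero.1 h
  apply hqn
  rw [eq_C_of_natDegree_eq_zero h1, hq0, C_0]

include hq hq0 in
theorem eval_le_mul_deriv (w : ℝ) (hw : 0 ≤ w) : q.eval w ≤ w * (derivative q).eval w := by
  have h : w * (derivative q).eval w = ∑ k ∈ Finset.range (q.natDegree + 1), (k : ℝ) * (q.coeff k * w ^ k) := by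
    rw [derivative_eval, sum_over_range' _ (by intro n; simp) (q.natDegree + 1) (Nat.lt_succ_self _),
      Finset.mul_sum]
    refine Finset.sum_congr rfl fun k _ => ?_
    rcases k with _ | k
    · simp
    · rw [Nat.add_sub_cancel, pow_succ]
      ring
  rw [h, eval_eq_sum_range]
  refine Finset.sum_le_sum fun k _ => ?_
  rcases k with _ | k
  · simp [hq0]
  · have h1 : 0 ≤ q.coeff (k + 1) * w ^ (k + 1) := mul_nonneg (hq _) (pow_nonneg hw _)
    have h2 : (1 : ℝ) ≤ ((k + 1 : ℕ) : ℝ) := by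
      push_cast
      have : (0 : ℝ) ≤ k := Nat.cast_nonneg k
      linarith
    nlinarith

/-- the map on the ray -/
noncomputable def tt (δ : ℝ) (w : ℝ) : ℝ :=
  (w - q.eval w / (derivative q).eval w)
    - δ * (q.eval (w - q.eval w / (derivative q).eval w) / (derivative q).eval w)

include hq0 in
theorem tt_zero (δ : ℝ) : tt q δ 0 = 0 := by
  have h : q.eval 0 = 0 := by rw [← coeff_zero_eq_eval_zero, hq0]
  simp [tt, h]

include hq hq0 hqn in
theorem tt_bounds (δ : ℝ) (hδ : 0 ≤ δ) (hδ1 : δ ≤ 1) (w : ℝ) (hw : 0 < w) :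
    0 ≤ tt q δ w ∧ tt q δ w < w := by
  have hd := deriv_pos' q hq hq0 hqn w hw
  have he := eval_pos' q hq hqn w hw
  have hle := eval_le_mul_deriv q hq hq0 w hw.le
  set n := w - q.eval w / (derivative q).eval w with hn
  have hn0 : 0 ≤ n := by
    rw [hn, sub_nonneg, div_le_iff₀ hd]
    exact hle
  have hnw : n < w := by
    rw [hn]
    have := div_pos he hd
    linarith
  have h1 : q.eval n ≤ n * (derivative q).eval w :=
    (eval_le_mul_deriv q hq hq0 n hn0).trans
      (mul_le_mul_of_nonneg_left (eval_mono' _ (deriv_coeff_nonneg q hq) hn0 hnw.le) hn0)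
  have h2 : 0 ≤ q.eval n / (derivative q).eval w := div_nonneg (eval_nonneg' q hq n hn0) hd.le
  have h3 : q.eval n / (derivative q).eval w ≤ n := by
    rw [div_le_iff₀ hd]
    exact h1
  have h4 : tt q δ w = n - δ * (q.eval n / (derivative q).eval w) := rfl
  rw [h4]
  constructor
  · nlinarith
  · nlinarith

include hq hq0 hqn in
theorem tt_continuousAt (δ : ℝ) (w : ℝ) (hw : 0 < w) : ContinuousAt (tt q δ) w := by
  have hd := (deriv_pos' q hq hq0 hqn w hw).ne'
  have h1 : ContinuousAt (fun w => w - q.eval w / (derivative q).eval w) w :=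
    continuousAt_id.sub (q.continuous.continuousAt.div (derivative q).continuous.continuousAt hd)
  have h2 : ContinuousAt (fun w => q.eval (w - q.eval w / (derivative q).eval w)) w :=
    ContinuousAt.comp (g := fun x => q.eval x) q.continuous.continuousAt h1
  exact h1.sub (continuousAt_const.mul (h2.div (derivative q).continuous.continuousAt hd))

include hq hq0 hqn in
theorem tt_iter (δ : ℝ) (hδ : 0 ≤ δ) (hδ1 : δ ≤ 1) (w : ℝ) (hw : 0 ≤ w) :
    (∀ n, 0 ≤ (tt q δ)^[n] w) ∧ Tendsto (fun n => (tt q δ)^[n] w) atTop (𝓝 0) := by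
  have hb : ∀ x, 0 ≤ x → 0 ≤ tt q δ x ∧ tt q δ x ≤ x := by
    intro x hx
    rcases hx.eq_or_lt with h | h
    · rw [← h, tt_zero q hq0]
      simp
    · have := tt_bounds q hq hq0 hqn δ hδ hδ1 x h
      exact ⟨this.1, this.2.le⟩
  have hnn : ∀ n, 0 ≤ (tt q δ)^[n] w := by
    intro n
    induction n with
    | zero => exact hw
    | succ n ih =>
      rw [Function.iterate_succ_apply']
      exact (hb _ ih).1
  have hanti : Antitone (fun n => (tt q δ)^[n] w) := by
    refine antitone_nat_of_succ_le fun n => ?_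
    rw [Function.iterate_succ_apply']
    exact (hb _ (hnn n)).2
  have hconv := tendsto_atTop_ciInf hanti ⟨0, by rintro _ ⟨n, rfl⟩; exact hnn n⟩
  refine ⟨hnn, ?_⟩
  set L := ⨅ n, (tt q δ)^[n] w with hL
  have hL0 : 0 ≤ L := le_ciInf hnn
  rcases hL0.eq_or_lt with h | h
  · rw [← h] at hconv
    exact hconv
  · exfalso
    have h1 := (tt_continuousAt q hq hq0 hqn δ L h).tendsto.comp hconv
    have h2 : Tendsto (fun n => (tt q δ)^[n + 1] w) atTop (𝓝 L) :=
      hconv.comp (tendsto_add_atTop_nat 1)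
    have h3 : (tt q δ) ∘ (fun n => (tt q δ)^[n] w) = fun n => (tt q δ)^[n + 1] w := by
      funext n
      rw [Function.comp_apply, Function.iterate_succ_apply']
    rw [h3] at h1
    have h4 := tendsto_nhds_unique h1 h2
    have h5 := (tt_bounds q hq hq0 hqn δ hδ hδ1 L h).2
    linarith

end real

/-! ### The ray -/

theorem map_ray (p : ℂ[X]) (a u c : ℂ) (hu : u ≠ 0) (hc : c ≠ 0) (q : ℝ[X])
    (hq : ∀ k, 0 ≤ q.coeff k) (hq0 : q.coeff 0 = 0) (hqn : q ≠ 0)
    (h : p.comp (C a + C u * X) = C c * q.map (algebraMap ℝ ℂ)) (δ : ℝ) (w : ℝ) (hw : 0 < w) :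
    RegAt (traub p δ) (a + u * w) (a + u * (tt q δ w : ℝ)) := by
  have hev : ∀ x : ℝ, p.eval (a + u * x) = c * (q.eval x : ℝ) := by
    intro x
    have h1 := congrArg (Polynomial.eval (x : ℂ)) h
    rw [eval_comp, eval_mul, eval_C] at h1
    simp only [eval_add, eval_mul, eval_C, eval_X] at h1
    rw [h1]
    congr 1
    have := Polynomial.eval_map_algebraMap (B := ℂ) q (x : ℂ)
    rw [this]
    have h2 := Polynomial.aeval_algebraMap_apply (A := ℝ) ℂ x q
    simpa using h2
  have hdev : ∀ x : ℝ, u * (derivative p).eval (a + u * x) = c * ((derivative q).eval x : ℝ) := by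
    intro x
    have h0 := congrArg derivative h
    rw [derivative_comp] at h0
    have h1 := congrArg (Polynomial.eval (x : ℂ)) h0
    rw [eval_mul, eval_comp] at h1
    simp only [derivative_add, derivative_mul, derivative_C, derivative_X, zero_mul, zero_add,
      mul_one, eval_C, eval_add, eval_mul, eval_X, derivative_map] at h1
    rw [h1]
    congr 1
    have := Polynomial.eval_map_algebraMap (B := ℂ) (derivative q) (x : ℂ)
    rw [this]
    have h2 := Polynomial.aeval_algebraMap_apply (A := ℝ) ℂ x (derivative q)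
    simpa using h2
  have hd := deriv_pos' q hq hq0 hqn w hw
  have hdc : (((derivative q).eval w : ℝ) : ℂ) ≠ 0 := by exact_mod_cast hd.ne'
  have hpd : (derivative p).eval (a + u * w) ≠ 0 := by
    intro h0
    have h1 := hdev w
    rw [h0, mul_zero] at h1
    exact mul_ne_zero hc hdc h1.symm
  have hreg := traub_reg p δ (a + u * w) hpd
  have hd' : (derivative p).eval (a + u * w) = c * ((derivative q).eval w : ℝ) / u := by
    rw [eq_div_iff hu, mul_comm]
    exact hdev w
  have e1 : (a + u * w) - p.eval (a + u * w) / (derivative p).eval (a + u * w)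
      = a + u * ((w - q.eval w / (derivative q).eval w : ℝ) : ℂ) := by
    rw [hev, hd']
    push_cast
    field_simp
    ring
  rw [e1, hev, hd'] at hreg
  have e2 : a + u * ((w - q.eval w / (derivative q).eval w : ℝ) : ℂ)
      - δ * (c * ((q.eval (w - q.eval w / (derivative q).eval w) : ℝ) : ℂ)
        / (c * ((derivative q).eval w : ℝ) / u)) = a + u * (tt q δ w : ℝ) := by
    unfold tt
    push_cast
    field_simp
    ring
  rw [e2] at hreg
  exact hreg

theorem map_zero' (p : ℂ[X]) (a u c : ℂ) (hu : u ≠ 0) (hc : c ≠ 0) (q : ℝ[X])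
    (hq : ∀ k, 0 ≤ q.coeff k) (hq0 : q.coeff 0 = 0) (hqn : q ≠ 0)
    (h : p.comp (C a + C u * X) = C c * q.map (algebraMap ℝ ℂ)) (δ : ℝ) (hδ : 0 ≤ δ)
    (hδ1 : δ ≤ 1) :
    RegAt (traub p δ) a a := by
  set R := traub p δ with hR
  have hz : Tendsto (fun w : ℝ => a + u * (w : ℂ)) (𝓝[>] 0) (𝓝 a) := by
    have h1 : Continuous (fun w : ℝ => a + u * (w : ℂ)) := by fun_prop
    have h2 := h1.tendsto 0
    simp only [Complex.ofReal_zero, mul_zero, add_zero] at h2
    exact h2.mono_left nhdsWithin_le_nhds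
  have hz2 : Tendsto (fun w : ℝ => a + u * ((tt q δ w : ℝ) : ℂ)) (𝓝[>] 0) (𝓝 a) := by
    have ht : Tendsto (fun w : ℝ => tt q δ w) (𝓝[>] 0) (𝓝 0) := by
      refine tendsto_of_tendsto_of_tendsto_of_le_of_le' tendsto_const_nhds
        (tendsto_nhdsWithin_of_tendsto_nhds tendsto_id) ?_ ?_
      · filter_upwards [self_mem_nhdsWithin] with w hw
        exact (tt_bounds q hq hq0 hqn δ hδ hδ1 w hw).1
      · filter_upwards [self_mem_nhdsWithin] with w hw
        exact (tt_bounds q hq hq0 hqn δ hδ hδ1 w hw).2.le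
    have h1 : Continuous (fun x : ℝ => a + u * (x : ℂ)) := by fun_prop
    have h2 := (h1.tendsto 0).comp ht
    simp only [Complex.ofReal_zero, mul_zero, add_zero] at h2
    exact h2
  have hn : Tendsto (fun w : ℝ => R.num.eval (a + u * (w : ℂ))) (𝓝[>] 0) (𝓝 (R.num.eval a)) :=
    (R.num.continuous.tendsto a).comp hz
  have hd : Tendsto (fun w : ℝ => (a + u * ((tt q δ w : ℝ) : ℂ)) * R.denom.eval (a + u * (w : ℂ)))
      (𝓝[>] 0) (𝓝 (a * R.denom.eval a)) :=
    hz2.mul ((R.denom.continuous.tendsto a).comp hz)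
  have heq : R.num.eval a = a * R.denom.eval a := by
    refine tendsto_nhds_unique (hn.congr' ?_) hd
    filter_upwards [self_mem_nhdsWithin] with w hw
    exact (map_ray p a u c hu hc q hq hq0 hqn h δ w hw).2
  refine ⟨?_, heq⟩
  intro h0
  rw [h0, mul_zero] at heq
  obtain ⟨s, t, hst⟩ := RatFunc.isCoprime_num_denom R
  have h1 := congrArg (Polynomial.eval a) hst
  rw [eval_add, eval_mul, eval_mul, heq, h0] at h1
  simp at h1

theorem ray_subset (p : ℂ[X]) (a u c : ℂ) (hu : u ≠ 0) (hc : c ≠ 0) (q : ℝ[X])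
    (hq : ∀ k, 0 ≤ q.coeff k) (hq0 : q.coeff 0 = 0) (hqn : q ≠ 0)
    (h : p.comp (C a + C u * X) = C c * q.map (algebraMap ℝ ℂ)) (δ : ℝ) (hδ : 0 ≤ δ)
    (hδ1 : δ ≤ 1) (w : ℝ) (hw : 0 ≤ w) :
    ((a + u * w : ℂ) : OnePoint ℂ) ∈ immediateBasin (sphereMap (traub p δ)) (a : OnePoint ℂ) := by
  have hmap : ∀ x : ℝ, 0 ≤ x → sphereMap (traub p δ) ((a + u * x : ℂ) : OnePoint ℂ)
      = ((a + u * (tt q δ x : ℝ) : ℂ) : OnePoint ℂ) := by
    intro x hx
    rcases hx.eq_or_lt with h0 | h0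
    · rw [← h0, tt_zero q hq0]
      simp only [Complex.ofReal_zero, mul_zero, add_zero]
      exact (map_zero' p a u c hu hc q hq hq0 hqn h δ hδ hδ1).sphere
    · exact (map_ray p a u c hu hc q hq hq0 hqn h δ x h0).sphere
  have hiter : ∀ (n : ℕ) (x : ℝ), 0 ≤ x → (sphereMap (traub p δ))^[n] ((a + u * x : ℂ) : OnePoint ℂ)
      = ((a + u * ((tt q δ)^[n] x : ℝ) : ℂ) : OnePoint ℂ) := by
    intro n x hx
    induction n with
    | zero => rfl
    | succ n ih =>
      rw [Function.iterate_succ_apply', Function.iterate_succ_apply', ih]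
      exact hmap _ ((tt_iter q hq hq0 hqn δ hδ hδ1 x hx).1 n)
  have hbasin : ∀ x : ℝ, 0 ≤ x → ((a + u * x : ℂ) : OnePoint ℂ)
      ∈ basin (sphereMap (traub p δ)) (a : OnePoint ℂ) := by
    intro x hx
    have h1 := (tt_iter q hq hq0 hqn δ hδ hδ1 x hx).2
    have h2 : Continuous (fun x : ℝ => ((a + u * (x : ℂ) : ℂ) : OnePoint ℂ)) :=
      OnePoint.continuous_coe.comp (by fun_prop)
    have h3 := (h2.tendsto 0).comp h1
    simp only [Complex.ofReal_zero, mul_zero, add_zero] at h3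
    refine h3.congr fun n => ?_
    rw [Function.comp_apply, hiter n x hx]
  have hpre : IsPreconnected ((fun x : ℝ => ((a + u * (x : ℂ) : ℂ) : OnePoint ℂ)) '' Set.Ici 0) := by
    refine (isPreconnected_Ici).image _ (Continuous.continuousOn ?_)
    exact OnePoint.continuous_coe.comp (by fun_prop)
  have hsub := hpre.subset_connectedComponentIn (x := (a : OnePoint ℂ))
    (F := basin (sphereMap (traub p δ)) (a : OnePoint ℂ)) ⟨0, Set.mem_Ici.2 le_rfl, by simp⟩
    (by
      rintro _ ⟨x, hx, rfl⟩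
      exact hbasin x hx)
  exact hsub ⟨w, hw, rfl⟩

end Pool.Agent.Hhelper2.Traub
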